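import Pool.Agent.Lib_MP_af4de1_dm.Ratio
import Pool.Agent.Lib_MP_af4de1_zy.Z177

/-!
# MP_af4de1_an: all zeros of `F(z;q)`, `0 < |q| ≤ 1`

For all `q` in the closed unit disc, `q ≠ 0, 1`, the zeros of `F(·;q)` are simple and form a sequence
`z_0, z_1, z_2, …` with `|z_k| < |q| |z_(k+1)|`; moreover `z_k = w_k(q) / q^k` with functions `w_k`
that are continuous on the closed disc without `1` and holomorphic in the open disc.
-/

set_option autoImplicit false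

namespace Pool.Agent.Results.MP_af4de1_an.DistinctModuli

/-- The entire function `F(·;q)` of the problem: `F(z;q) = ∑ q^(k(k-1)/2) z^k / k!`. -/
noncomputable def F (q z : ℂ) : ℂ :=
  ∑' k : ℕ, q ^ (k * (k - 1) / 2) * z ^ k / (k.factorial : ℂ)

theorem good_circle (q : ℂ) (hq : ‖q‖ = 1) (hq1 : q ≠ 1) : SokamIn.Dist q :=
  SokamIn.circle_of_arc (fun α a b => SokamIn.dist_of_fu fun r c =>
    SokamFU.dist_all SokamV3.dist_F1 SokamEnd.dist_mid' SokamFU.dist_F3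
      (SokamTI.dist_tip (SokamTI.w4_F3 (SokamEnd.dist_big SokamV3.dist_F1))) α r a b c) q hq hq1

/-- There are functions `w 0, w 1, w 2, …`, continuous on `{q : |q| ≤ 1, q ≠ 1}` and holomorphic in
`|q| < 1`, with `w k 0 = -(k+1)`, `w k q ≠ 0` and `|w k q| < |w (k+1) q|`, such that for all `q` with
`0 < |q| ≤ 1`, `q ≠ 1`, the zeros of `F(·;q)` are exactly the numbers `w k q / q ^ k`, and all of them
are simple.  For `q = 1` there is no zero. -/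
theorem result : (∀ z, F 1 z ≠ 0) ∧ ∃ w : ℕ → ℂ → ℂ,
    (∀ k, ContinuousOn (w k) {q : ℂ | ‖q‖ ≤ 1 ∧ q ≠ 1} ∧
      DifferentiableOn ℂ (w k) (Metric.ball 0 1) ∧ w k 0 = -((k : ℂ) + 1)) ∧
    (∀ (k : ℕ) (q : ℂ), ‖q‖ ≤ 1 → q ≠ 1 → w k q ≠ 0 ∧ ‖w k q‖ < ‖w (k + 1) q‖) ∧
    ∀ q : ℂ, 0 < ‖q‖ → ‖q‖ ≤ 1 → q ≠ 1 →
      (∀ z, F q z = 0 ↔ ∃ k, z = w k q / q ^ k) ∧ ∀ z, F q z = 0 → deriv (F q) z ≠ 0 := by
  have hF : F = SokamF.F := rfl
  rw [hF]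
  refine ⟨fun z => by rw [SokamIn.F_one]; exact Complex.exp_ne_zero _, ?_⟩
  obtain ⟨w, h1, h2⟩ := SokamDM.main good_circle
  refine ⟨w, h1, fun k q hq hq1 => (h2 q hq hq1).1 k, fun q hq0 hq hq1 => ?_⟩
  obtain ⟨h3, h4⟩ := (h2 q hq hq1).2 (norm_pos_iff.1 hq0)
  exact ⟨h3, fun z hz => by obtain ⟨k, rfl⟩ := (h3 z).1 hz; exact h4 k⟩

end Pool.Agent.Results.MP_af4de1_an.DistinctModuli
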